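import Pool.Agent.X83.DM.Stm

/-! Project DM: the second order expansion (REP). -/

set_option autoImplicit false
set_option linter.all false

namespace Pool.Agent.X289.DM

open MeasureTheory Set Filter Topology Real Pool.Agent.X83.DM

theorem cont_g {a c : ℝ} {y g : ℝ → ℝ} (h : Ker a c y g) : Continuous g :=
  continuous_iff_continuousAt.2 fun t => (h.dg t).continuousAt

theorem int_zero {a c : ℝ} {y g : ℝ → ℝ} (h : Ker a c y g) {M η : ℝ} (hη : 0 < η)
    (hb : ∀ t : ℝ, 0 ≤ t → |y t| ≤ M * exp (-(η * t)) ∧ |g t| ≤ M * exp (-(η * t))) :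
    IntegrableOn g (Ioi 0) ∧ ∫ r in Ioi (0 : ℝ), g r = 0 := by
  have h1 : IntegrableOn g (Ioi 0) := by
    have h2 : IntegrableOn (fun t => M * exp (-η * t)) (Ioi 0) := (exp_neg_integrableOn_Ioi 0 hη).const_mul M
    refine Integrable.mono' h2 (cont_g h).aestronglyMeasurable.restrict ?_
    refine (ae_restrict_iff' measurableSet_Ioi).2 (Filter.Eventually.of_forall fun t ht => ?_)
    have h3 := (hb t (le_of_lt ht)).2
    rw [Real.norm_eq_abs, neg_mul]
    exact h3
  refine ⟨h1, ?_⟩
  have h3 : Tendsto y atTop (𝓝 0) := by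
    refine squeeze_zero_norm' (a := fun t => M * exp (-(η * t))) ?_ ?_
    · filter_upwards [eventually_ge_atTop 0] with t ht
      exact (hb t ht).1
    · have h4 : Tendsto (fun t : ℝ => exp (-(η * t))) atTop (𝓝 0) :=
        Real.tendsto_exp_neg_atTop_nhds_zero.comp (tendsto_id.const_mul_atTop hη)
      simpa using h4.const_mul M
  have h4 := integral_Ioi_of_hasDerivAt_of_tendsto (h.dy 0).continuousAt.continuousWithinAt
    (fun x _ => h.dy x) h1 h3
  rw [h4, h.y0, sub_zero]

theorem n_int {a c : ℝ} {y g : ℝ → ℝ} (h : Ker a c y g) (h1 : IntegrableOn g (Ioi 0))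
    (h2 : ∫ r in Ioi (0 : ℝ), g r = 0) (s : ℝ) (hs : 0 ≤ s) :
    ∫ r in Ioi (0 : ℝ), N c s r * g r =
      1 / 2 * ∫ r in (0 : ℝ)..s, (r * c / 2 - 1) * exp (-(c * (s - r) / 2)) * g r := by
  have hg := cont_g h
  have e : (fun r => N c s r * g r) = fun r => 1 / 2 * exp (-(c * s / 2)) * g r +
      (Iio s).indicator (fun r => 1 / 2 * ((r * c / 2 - 1) * exp (-(c * (s - r) / 2)) * g r)) r := by
    funext r
    unfold N
    by_cases hr : r < s
    · rw [if_pos hr, indicator_of_mem (show r ∈ Iio s from hr)]
      have h3 : exp (-(c * (s - r) / 2)) = exp (-(c * s / 2)) * exp (c * r / 2) := by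
        rw [← exp_add]
        congr 1
        ring
      rw [h3]
      ring
    · rw [if_neg hr, indicator_of_notMem (show r ∉ Iio s from hr)]
      ring
  have hcont : Continuous fun r => 1 / 2 * ((r * c / 2 - 1) * exp (-(c * (s - r) / 2)) * g r) := by
    fun_prop
  have hint : Integrable ((Iio s).indicator
      (fun r => 1 / 2 * ((r * c / 2 - 1) * exp (-(c * (s - r) / 2)) * g r))) (volume.restrict (Ioi 0)) := by
    rw [integrable_indicator_iff measurableSet_Iio, IntegrableOn, Measure.restrict_restrict measurableSet_Iio,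
      Iio_inter_Ioi]
    exact (hcont.integrableOn_Icc (a := 0) (b := s)).mono_set Ioo_subset_Icc_self
  rw [e, integral_add (h1.const_mul _) hint, integral_const_mul, h2, mul_zero, zero_add,
    integral_indicator measurableSet_Iio, Measure.restrict_restrict measurableSet_Iio, Iio_inter_Ioi,
    intervalIntegral.integral_of_le hs, integral_Ioc_eq_integral_Ioo, integral_const_mul]

theorem t : Pool.Agent.X83.DM.S_REP := by
  intro hDEC hRES hID a c1 c2 ha hc1 hc2
  obtain ⟨M, η, hη, hM, hdec⟩ := hDEC a c1 c2 ha hc1 hc2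
  refine ⟨M ^ 3 * (8 / η ^ 2), η / 2, by positivity, by positivity, ?_⟩
  intro c hc c' hc' y g y' g' hK hK'
  have hd := hdec c hc y g hK
  have hd' := hdec c' hc' y' g' hK'
  have hg := cont_g hK
  have hg' := cont_g hK'
  let h : ℝ → ℝ := fun r => ∫ t in (0 : ℝ)..r, g' t * g (r - t)
  have hh : Continuous h := by
    refine intervalIntegral.continuous_parametric_intervalIntegral_of_continuous (f := fun r t => g' t * g (r - t))
      ?_ continuous_id
    exact (hg'.comp continuous_snd).mul (hg.comp (continuous_fst.sub continuous_snd))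
  let ρ : ℝ → ℝ := fun s => ∫ r in (0 : ℝ)..s, h r * g (s - r)
  have hρ : Continuous ρ := by
    refine intervalIntegral.continuous_parametric_intervalIntegral_of_continuous (f := fun s r => h r * g (s - r))
      ?_ continuous_id
    exact (hh.comp continuous_snd).mul (hg.comp (continuous_fst.sub continuous_snd))
  have hrel : ∀ r, g' r = g r - (c' - c) * h r := by
    intro r
    have := hRES a c c' y g y' g' hK hK' r
    have h2 : h r = ∫ t in (0 : ℝ)..r, g' t * g (r - t) := rfl
    rw [h2]
    linarith
  refine ⟨ρ, hρ, ?_, ?_⟩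
  · intro s hs
    have b1 : ∀ r, 0 ≤ r → |h r| ≤ M ^ 2 * exp (-(η * r)) * r := by
      intro r hr
      have h3 := intervalIntegral.norm_integral_le_of_norm_le_const (a := 0) (b := r)
        (f := fun t => g' t * g (r - t)) (C := M ^ 2 * exp (-(η * r))) (by
          intro t ht
          rw [uIoc_of_le hr] at ht
          rw [Real.norm_eq_abs, abs_mul]
          have h4 := (hd' t ht.1.le).2
          have h5 := (hd (r - t) (by linarith [ht.2])).2
          calc |g' t| * |g (r - t)| ≤ (M * exp (-(η * t))) * (M * exp (-(η * (r - t)))) :=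
                mul_le_mul h4 h5 (abs_nonneg _) (by positivity)
            _ = M ^ 2 * (exp (-(η * t)) * exp (-(η * (r - t)))) := by ring
            _ = M ^ 2 * exp (-(η * r)) := by
                rw [← exp_add]
                congr 2
                ring)
      rw [sub_zero, abs_of_nonneg hr, Real.norm_eq_abs] at h3
      exact h3
    have b2 : |ρ s| ≤ M ^ 3 * s * exp (-(η * s)) * s := by
      have h3 := intervalIntegral.norm_integral_le_of_norm_le_const (a := 0) (b := s)
        (f := fun r => h r * g (s - r)) (C := M ^ 3 * s * exp (-(η * s))) (by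
          intro r hr
          rw [uIoc_of_le hs] at hr
          rw [Real.norm_eq_abs, abs_mul]
          have h4 := b1 r hr.1.le
          have h5 := (hd (s - r) (by linarith [hr.2])).2
          have h6 : M ^ 2 * exp (-(η * r)) * r ≤ M ^ 2 * exp (-(η * r)) * s :=
            mul_le_mul_of_nonneg_left hr.2 (by positivity)
          calc |h r| * |g (s - r)| ≤ (M ^ 2 * exp (-(η * r)) * s) * (M * exp (-(η * (s - r)))) :=
                mul_le_mul (h4.trans h6) h5 (abs_nonneg _) (by positivity)
            _ = M ^ 3 * s * (exp (-(η * r)) * exp (-(η * (s - r)))) := by ring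
            _ = M ^ 3 * s * exp (-(η * s)) := by
                rw [← exp_add]
                congr 2
                ring)
      rw [sub_zero, abs_of_nonneg hs, Real.norm_eq_abs] at h3
      exact h3
    refine b2.trans ?_
    have h7 : 0 ≤ η * s / 2 := by positivity
    have h8 := Real.quadratic_le_exp_of_nonneg h7
    have h9 : s ^ 2 ≤ 8 / η ^ 2 * exp (η * s / 2) := by
      have h10 : (η * s / 2) ^ 2 / 2 ≤ exp (η * s / 2) := by linarith
      rw [div_mul_eq_mul_div, le_div_iff₀ (by positivity)]
      nlinarith
    have h11 : exp (-(η * s)) = exp (-(η / 2 * s)) * exp (-(η * s / 2)) := by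
      rw [← exp_add]
      congr 1
      ring
    have h12 : exp (η * s / 2) * exp (-(η * s / 2)) = 1 := by
      rw [← exp_add, add_neg_cancel, exp_zero]
    calc M ^ 3 * s * exp (-(η * s)) * s = M ^ 3 * exp (-(η * s)) * s ^ 2 := by ring
      _ ≤ M ^ 3 * exp (-(η * s)) * (8 / η ^ 2 * exp (η * s / 2)) :=
          mul_le_mul_of_nonneg_left h9 (by positivity)
      _ = M ^ 3 * (8 / η ^ 2) * exp (-(η / 2 * s)) * (exp (η * s / 2) * exp (-(η * s / 2))) := by
          rw [h11]
          ring
      _ = M ^ 3 * (8 / η ^ 2) * exp (-(η / 2 * s)) := by rw [h12, mul_one]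
  · intro s hs
    obtain ⟨i1, i2⟩ := int_zero hK hη hd
    have e1 := n_int hK i1 i2 s hs
    have e2 := hID a c y g hK s
    have e3 : h s = (∫ r in (0 : ℝ)..s, g r * g (s - r)) - (c' - c) * ρ s := by
      have h3 : h s = ∫ r in (0 : ℝ)..s, (g r * g (s - r) - (c' - c) * (h r * g (s - r))) := by
        show (∫ r in (0 : ℝ)..s, g' r * g (s - r)) = _
        refine intervalIntegral.integral_congr fun r _ => ?_
        show g' r * g (s - r) = g r * g (s - r) - (c' - c) * (h r * g (s - r))
        rw [hrel r]
        ring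
      rw [h3, intervalIntegral.integral_sub, intervalIntegral.integral_const_mul]
      · exact (hg.mul (hg.comp (continuous_const.sub continuous_id))).intervalIntegrable _ _
      · exact (continuous_const.mul (hh.mul (hg.comp (continuous_const.sub continuous_id)))).intervalIntegrable _ _
    rw [hrel s, e1, e3, e2]
    ring

end Pool.Agent.X289.DM
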